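import Pool.Agent.helper95.FJ.SpecC

/-!
# Project fj, row BDG
-/

set_option autoImplicit false

open Finset

noncomputable section

namespace Pool.Agent.FJ

open Pool.Agent.FI

private lemma BDG_abs (R g : ℕ) (hg : 1 ≤ g) (t : ℤ) (ht : t ∈ Icc (-(R : ℤ)) R) (hd : (g : ℤ) ∣ t) :
    t / g ∈ Icc (-((R / g : ℕ) : ℤ)) ((R / g : ℕ) : ℤ) := by
  obtain ⟨q, rfl⟩ := hd
  have hg0 : (0 : ℤ) < g := by exact_mod_cast hg
  rw [mem_Icc] at ht ⊢
  rw [Int.mul_ediv_cancel_left _ hg0.ne']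
  have h1 : |q| * g ≤ R := by
    rw [← abs_le, abs_mul, abs_of_pos hg0] at ht
    linarith [ht, mul_comm (g : ℤ) |q|]
  have h2 : |q| ≤ ((R / g : ℕ) : ℤ) := by
    push_cast
    exact (Int.le_ediv_iff_mul_le hg0).mpr h1
  exact abs_le.mp h2

theorem BDG (hBDZ : BDZ_stmt) : BDG_stmt := by
  classical
  obtain ⟨C, hC, hb⟩ := hBDZ
  refine ⟨C, hC, fun N R g hN hR hg z hz Y hY => ?_⟩
  have hg0 : (0 : ℝ) < g := by exact_mod_cast hg
  have hgz : (0 : ℤ) < g := by exact_mod_cast hg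
  have hN0 : (0 : ℝ) < √(N : ℝ) := Real.sqrt_pos.mpr (by exact_mod_cast hN)
  have hrhs : 0 ≤ C * ((R : ℝ) / g * (Y / (g * √(N : ℝ)) + 1)) := by positivity
  rcases Finset.eq_empty_or_nonempty
    ({w ∈ Bx R | w ≠ 0 ∧ (g : ℤ) ∣ w.1 ∧ (g : ℤ) ∣ w.2 ∧ |(ac z w : ℝ)| ≤ Y} : Finset (ℤ × ℤ)) with he | hne
  · rw [he]
    simpa using hrhs
  · -- `g ≤ R`
    have hgR : g ≤ R := by
      obtain ⟨w, hw⟩ := hne
      rw [mem_filter, Bx, mem_product, mem_Icc, mem_Icc] at hw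
      obtain ⟨⟨⟨a1, a2⟩, a3, a4⟩, hw0, hd1, hd2, -⟩ := hw
      by_cases h1 : w.1 = 0
      · have h2 : w.2 ≠ 0 := fun h2 => hw0 (Prod.ext h1 h2)
        have h3 := Int.le_of_dvd (abs_pos.mpr h2) ((dvd_abs _ _).mpr hd2)
        have h4 : |w.2| ≤ R := abs_le.mpr ⟨a3, a4⟩
        exact_mod_cast h3.trans h4
      · have h3 := Int.le_of_dvd (abs_pos.mpr h1) ((dvd_abs _ _).mpr hd1)
        have h4 : |w.1| ≤ R := abs_le.mpr ⟨a1, a2⟩
        exact_mod_cast h3.trans h4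
    have hR' : 1 ≤ R / g := (Nat.one_le_div_iff (by omega)).mpr hgR
    have h := hb N (R / g) hN hR' z hz 0 (Y / g) (by positivity)
    have hcard : (#({w ∈ Bx R | w ≠ 0 ∧ (g : ℤ) ∣ w.1 ∧ (g : ℤ) ∣ w.2 ∧ |(ac z w : ℝ)| ≤ Y} : Finset (ℤ × ℤ))) ≤
        #({w ∈ Bx (R / g) | |(ac z w : ℝ) - ((0 : ℤ) : ℝ)| ≤ Y / g} : Finset (ℤ × ℤ)) := by
      refine card_le_card_of_injOn (fun w => (w.1 / g, w.2 / g)) ?_ ?_
      · intro w hw
        rw [mem_coe, mem_filter, Bx, mem_product] at hw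
        obtain ⟨⟨a1, a2⟩, -, hd1, hd2, hY1⟩ := hw
        rw [mem_coe, mem_filter, Bx, mem_product]
        refine ⟨⟨BDG_abs R g hg _ a1 hd1, BDG_abs R g hg _ a2 hd2⟩, ?_⟩
        obtain ⟨u, hu⟩ := hd1
        obtain ⟨v, hv⟩ := hd2
        have e : ac z w = g * ac z (w.1 / g, w.2 / g) := by
          simp only [ac]
          rw [hu, hv, Int.mul_ediv_cancel_left _ hgz.ne', Int.mul_ediv_cancel_left _ hgz.ne']
          ring
        rw [Int.cast_zero, sub_zero, le_div_iff₀ hg0]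
        have e2 : |(ac z w : ℝ)| = |(ac z (w.1 / g, w.2 / g) : ℝ)| * g := by
          rw [e]
          push_cast
          rw [abs_mul, abs_of_pos hg0, mul_comm]
        rw [← e2]
        exact hY1
      · intro w hw w' hw' hww
        rw [mem_coe, mem_filter] at hw hw'
        simp only [Prod.mk.injEq] at hww
        refine Prod.ext ?_ ?_
        · rw [← Int.ediv_mul_cancel hw.2.2.1, ← Int.ediv_mul_cancel hw'.2.2.1, hww.1]
        · rw [← Int.ediv_mul_cancel hw.2.2.2.1, ← Int.ediv_mul_cancel hw'.2.2.2.1, hww.2]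
    have h1 : ((R / g : ℕ) : ℝ) ≤ (R : ℝ) / g := Nat.cast_div_le
    have h2 : Y / g / √(N : ℝ) = Y / (g * √(N : ℝ)) := by rw [div_div]
    rw [h2] at h
    refine le_trans (by exact_mod_cast hcard) (h.trans ?_)
    gcongr

end Pool.Agent.FJ
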